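import Mathlib
import Pool.Agent.R390.MZ.Filt

set_option autoImplicit false

/-!
# Hoffman's basis conjecture: a recurrence for the numbers of relations of mixed weight, or infinitely
many new relations

Let `R_k` be the number of independent relations between the Hoffman elements of weight at most `k`.
Either `R_(k+4) + R_k = R_(k+3) + R_(k+2)` for all large `k`, or there are infinitely many weights
with a relation that is not a consequence, without higher weights, of relations of smaller weight.
-/

open Pool.Agent.R390.MZ MvPolynomial

namespace Pool.Agent.Results.MP_c2d7b4_nt.FilteredRecurrence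

/-- the weights of the variables `X_s` and of one more variable `t`, of weight `1` -/
def wt1 {σ : Type} (wt : σ → ℕ) (o : Option σ) : ℕ := o.elim 1 wt

/-- the values of the variables `X_s` and `t = 1` -/
def x1 {σ : Type} (x : σ → ℝ) (o : Option σ) : ℝ := o.elim 1 x

/-- `f` is a new relation of weight at most `k` between the numbers `x s`, written with an additional
variable `t = 1` of weight `1`: a homogeneous polynomial of weight `k` that vanishes at `t = 1` and
the `x s`, and is not in the ideal generated by the homogeneous polynomials of smaller weight that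
vanish there -/
def NewRelation {σ : Type} (wt : σ → ℕ) (x : σ → ℝ) (f : MvPolynomial (Option σ) ℚ) (k : ℕ) :
    Prop :=
  IsWeightedHomogeneous (wt1 wt) f k ∧ aeval (x1 x) f = 0 ∧
    f ∉ Ideal.span {g : MvPolynomial (Option σ) ℚ | ∃ j < k,
      IsWeightedHomogeneous (wt1 wt) g j ∧ aeval (x1 x) g = 0}

/-- Let `x_s` be numbers of weight `wt s` which generate the spaces `Z_k` of multiple zeta values with
`d_k` monomials of weight `k` (for example, by Brown's theorem, the multiple zeta values of the
Lyndon words in `2` and `3`), and assume Brown's theorem that the Hoffman elements of weight `k` span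
`Z_k` (`hS`). Let `R_k` be the number of independent relations between the Hoffman elements of weight
at most `k`. Then `R_(k+4) + R_k = R_(k+3) + R_(k+2)` for all sufficiently large `k`, or there are new
relations between the `x_s` in infinitely many weights. -/
theorem result {σ : Type} (wt : σ → ℕ) (x : σ → ℝ)
    (hS : ∀ k, Submodule.span ℚ (Set.range fun l : Weq k => zt l.1) = ZL k)
    (hB : Gens ZL dz wt x) :
    (∃ k0, ∀ k, k0 ≤ k →
      nrel (fun l : Wle (k + 4) => zt l.1) + nrel (fun l : Wle k => zt l.1) =
        nrel (fun l : Wle (k + 3) => zt l.1) + nrel (fun l : Wle (k + 2) => zt l.1)) ∨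
    ∀ N, ∃ k, N < k ∧ ∃ f, NewRelation wt x f k := by
  obtain ⟨hd, hZ⟩ := hB
  rcases dichotomy_filt hd hZ with ⟨k0, h⟩ | h
  · left
    refine ⟨k0, fun k hk => ?_⟩
    have h1 := h k hk
    have h2 := nrel_Wle hS (k + 4)
    have h3 := nrel_Wle hS (k + 3)
    have h4 := nrel_Wle hS (k + 2)
    have h5 := nrel_Wle hS k
    have h6 := S_rec k
    omega
  · exact Or.inr h

end Pool.Agent.Results.MP_c2d7b4_nt.FilteredRecurrence
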