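import Mathlib
import Pool.Agent.R404.WZ.N

/-!
# Expansions in Hoffman elements have superexponential coefficients

By Brown's theorem every multiple zeta value of weight `N` is a rational combination of the Hoffman
elements of weight `N`. Let `η < 1`, `β < 1 / 3` and `γ < 1 - η`. We show that there is `D` such that for
every large `N` there are at least `N ^ η` admissible indices of weight `N` and depth `D` with the
following property: if a nonzero integral combination of the corresponding multiple zeta values, with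
coefficients at most `2 ^ (N ^ γ)`, is written in any way as a real combination of Hoffman elements of
weight `N`, then some coefficient has absolute value greater than `N ^ (β N)`.
-/

set_option autoImplicit false

namespace Pool.Agent.Results.MP_c2d7b4_nt.LargeCoefficients

/-- `trunc [s_1, ..., s_r] m` is the sum of `∏ k_i ^ (-s_i)` over `m > k_1 > ... > k_r ≥ 1` -/
noncomputable def trunc : List ℕ → ℕ → ℝ
  | [], _ => 1
  | s :: l, m => ∑ j ∈ Finset.Ico 1 m, trunc l j / (j : ℝ) ^ s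

/-- the multiple zeta value `ζ(s_1, ..., s_r)`, `s_1` belongs to the largest variable -/
noncomputable def mzv : List ℕ → ℝ
  | [] => 1
  | s :: l => ∑' m : ℕ, trunc l (m + 1) / ((m + 1 : ℕ) : ℝ) ^ s

/-- the admissible indices of weight `N` -/
def Admissible (N : ℕ) (w : List ℕ) : Prop :=
  (∀ s ∈ w, 1 ≤ s) ∧ (∀ s ∈ w.head?, 2 ≤ s) ∧ w.sum = N

/-- the indices over `{2, 3}` of weight `N` -/
def Hoffman (N : ℕ) (w : List ℕ) : Prop := (∀ s ∈ w, s = 2 ∨ s = 3) ∧ w.sum = N

lemma trunc_eq (w : List ℕ) : ∀ m, trunc w m = Pool.Agent.Y760.ZG.hr w m := by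
  induction w with
  | nil => intro m; rw [trunc, Pool.Agent.Y760.ZG.hr_nil]
  | cons s w ih =>
    intro m
    rw [trunc, Pool.Agent.Y760.ZG.hr_cons]
    exact Finset.sum_congr rfl fun j _ => by rw [ih]

lemma mzv_eq : mzv = Pool.Agent.Y760.ZG.mz := by
  funext w
  cases w with
  | nil => rw [mzv, Pool.Agent.Y760.ZG.mz]
  | cons s w =>
    rw [mzv, Pool.Agent.Y760.ZG.mz]
    exact tsum_congr fun m => by rw [trunc_eq]

lemma height_hoffman {w : List ℕ} (hw : ∀ s ∈ w, s = 2 ∨ s = 3) :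
    w.sum ≤ 3 * Pool.Agent.Y777.AM.ht w := by
  induction w with
  | nil => simp
  | cons s w ih =>
    have h1 := ih fun x hx => hw x (List.mem_cons_of_mem _ hx)
    have h2 := hw s List.mem_cons_self
    have h3 : Pool.Agent.Y777.AM.ht (s :: w) = Pool.Agent.Y777.AM.ht w + 1 := by
      unfold Pool.Agent.Y777.AM.ht
      rw [List.countP_cons_of_pos]
      have : 2 ≤ s := by omega
      simpa using this
    rw [List.sum_cons, h3]
    omega

/-- Let `0 < η < 1`, `0 ≤ β < 1 / 3` and `γ + η < 1`. There is a number `D ≥ 2` such that for every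
large `N` there is a set `T` of at least `N ^ η` admissible indices of weight `N` and depth `D` with the
following property. Let `c_w` (`w ∈ T`) be integers, not all zero, with `|c_w| ≤ 2 ^ (N ^ γ)`, let `H`
be a finite set of Hoffman indices of weight `N` and `b_h` real numbers with
`∑_T c_w ζ(w) = ∑_H b_h ζ(h)`. Then `|b_h| > N ^ (β N)` for some `h` in `H`. -/
theorem result (β γ η : ℝ) (hη : 0 < η) (hη1 : η < 1) (hβ : 0 ≤ β) (hβ3 : β < 1 / 3)
    (hγ : γ + η < 1) :
    ∃ D N0 : ℕ, 2 ≤ D ∧ ∀ N : ℕ, N0 ≤ N → ∃ T : Finset (List ℕ), (N : ℝ) ^ η ≤ T.card ∧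
      (∀ w ∈ T, Admissible N w ∧ w.length = D) ∧
      ∀ c : List ℕ → ℤ, (∃ w ∈ T, c w ≠ 0) →
      (∀ w ∈ T, |(c w : ℝ)| ≤ (2 : ℝ) ^ ((N : ℝ) ^ γ)) →
      ∀ H : Finset (List ℕ), (∀ h ∈ H, Hoffman N h) → ∀ b : List ℕ → ℝ,
      ∑ w ∈ T, (c w : ℝ) * mzv w = ∑ h ∈ H, b h * mzv h →
      ∃ h ∈ H, (N : ℝ) ^ (β * N) < |b h| := by
  rw [mzv_eq]
  set ρ : ℝ := (1 / 3 - β) / 2 with hρ
  have hρ0 : 0 < ρ := by rw [hρ]; linarith
  obtain ⟨D, hD, N1, h1⟩ := Pool.Agent.R404.WZ.asyMF γ ρ 0 0 η hη hη1 hγ hρ0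
  obtain ⟨N2, h2⟩ := Pool.Agent.R404.MZ.asyH 1 1 (1 / 3 - ρ) (1 / 3) (by rw [hρ]; linarith)
    (by linarith)
  refine ⟨D, max (max N1 N2) (4 * D + 1), hD, fun N hN => ?_⟩
  have hNp : (0 : ℝ) < N := by
    have : 0 < N := by omega
    exact_mod_cast this
  obtain ⟨T, e1, e2, e3⟩ := h1 N (by omega)
  refine ⟨T, e1, fun w hw => ?_, fun c hc hcC H hH b hb => ?_⟩
  · obtain ⟨f1, f2, f3⟩ := e2 w hw
    have f4 : ∀ s ∈ w, 2 ≤ s := by
      intro s hs
      by_contra hcon
      push Not at hcon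
      have g1 := f3 s hs
      have g2 : 2 * D * s ≤ 2 * D * 2 := Nat.mul_le_mul_left _ hcon.le
      omega
    exact ⟨⟨fun s hs => le_trans (by norm_num) (f4 s hs), fun s hs =>
      f4 s (List.mem_of_mem_head? hs), f2⟩, f1⟩
  · by_contra hcon
    push Not at hcon
    have h3 := e3 0 c (Or.inr hc) hcC ∅ (by simp) (fun _ => 0) (by simp)
    rw [Int.cast_zero, zero_add, Finset.sum_empty, sub_zero, hb] at h3
    set D' : ℝ := (N : ℝ) ^ (β * N) with hD'
    have hD0 : 0 < D' := Real.rpow_pos_of_pos hNp _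
    have h4 := h2 N (by omega) H (fun h hh => by
      obtain ⟨g1, g2⟩ := hH h hh
      refine ⟨fun m hm => ?_, fun x hx => ?_, by rw [g2, one_mul], ?_⟩
      · have := g1 m hm
        omega
      · have := g1 x (List.mem_of_mem_head? hx)
        omega
      · have g3 := height_hoffman g1
        rw [g2] at g3
        have g4 : (N : ℝ) ≤ 3 * (Pool.Agent.Y777.AM.ht h : ℝ) := by exact_mod_cast g3
        linarith) (fun h => b h / D') (fun h hh => by
      rw [one_pow, abs_div, abs_of_pos hD0, div_le_one hD0]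
      exact hcon h hh)
    have h5 : ∑ h ∈ H, b h * Pool.Agent.Y760.ZG.mz h =
        D' * ∑ h ∈ H, b h / D' * Pool.Agent.Y760.ZG.mz h := by
      rw [Finset.mul_sum]
      exact Finset.sum_congr rfl fun h _ => by field_simp
    rw [h5, abs_mul, abs_of_pos hD0] at h3
    have h6 : D' * ((N : ℝ) ^ ((1 / 3 - ρ) * N))⁻¹ = ((N : ℝ) ^ (ρ * N))⁻¹ := by
      rw [hD', ← Real.rpow_neg hNp.le, ← Real.rpow_neg hNp.le, ← Real.rpow_add hNp]
      congr 1
      rw [hρ]
      ring
    have h7 := mul_le_mul_of_nonneg_left h4 hD0.le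
    rw [h6] at h7
    linarith

end Pool.Agent.Results.MP_c2d7b4_nt.LargeCoefficients
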