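import Mathlib
import Pool.Agent.R390.MZ.Hoff

set_option autoImplicit false

/-!
# Hoffman's basis conjecture: the numbers of relations up to a given weight

Let `D_k` be the number of the Hoffman elements of weight at most `k`.  If Hoffman's conjecture is
false, then the number of independent relations between the Hoffman elements of weight at most `k`
is either exactly `D_(k-n)` for all `k`, or exactly `D_(k-n)` for `k < m` and at least
`D_(k-n) + D_(k-m) - D_(k-n-m)` for all `k`.
-/

open Pool.Agent.R390.MZ

namespace Pool.Agent.Results.MP_c2d7b4_nt.RelationIdeal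

/-- Let `D_k` be the number of words in `2` and `3` of weight at most `k` and `D_k = 0` for `k < 0`.
Assume the two theorems of Brown: the Hoffman elements of weight `k` span the space `Z_k` of all
multiple zeta values of weight `k` (`hS`), and the `Z_k` are generated by numbers with `d_k` monomials
of weight `k` (`hB`). Then one of the following holds.
(i) The Hoffman elements are linearly independent, that is, Hoffman's conjecture is true.
(ii) There is `n ≥ 1` such that for all `k` there are exactly `D_(k-n)` independent relations between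
the Hoffman elements of weight at most `k`.
(iii) There are `m ≥ n ≥ 1` such that there are exactly `D_(k-n)` independent relations between the
Hoffman elements of weight at most `k` for all `k < m`, and at least `D_(k-n)` and at least
`D_(k-n) + D_(k-m) - D_(k-n-m)` for all `k`. -/
theorem result (hS : ∀ k, Submodule.span ℚ (Set.range fun l : Weq k => zt l.1) = ZL k)
    (hB : Gen ZL dz) :
    LinearIndependent ℚ (fun l : W => zt l.1) ∨
    (∃ n, 1 ≤ n ∧ ∀ k, nrel (fun l : Wle k => zt l.1) = sh (sumTo dz) n k) ∨
    (∃ n m, 1 ≤ n ∧ n ≤ m ∧ (∀ k < m, nrel (fun l : Wle k => zt l.1) = sh (sumTo dz) n k) ∧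
      ∀ k, sh (sumTo dz) n k ≤ nrel (fun l : Wle k => zt l.1) ∧
      sh (sumTo dz) n k + sh (sumTo dz) m k ≤
        nrel (fun l : Wle k => zt l.1) + sh (sumTo dz) (n + m) k) := by
  obtain ⟨σ, wt, x, hd, hZ⟩ := hB
  have h0 : ZL 0 ≠ ⊥ := ZL_ne_bot (by norm_num)
  rcases tri_full rfl hd hZ with
    ⟨-, h⟩ | ⟨f, n, hf, -, he, -, h⟩ | ⟨f, n, g, m, hnm, hf, -, he, hg, -, he', -, h5, h⟩
  · refine Or.inl (indep_W fun k => ?_)
    have := h k
    have := nrel_Wle hS k
    omega
  · refine Or.inr (Or.inl ⟨n, one_le_full hd hZ h0 hf he, fun k => ?_⟩)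
    have := h k
    have := nrel_Wle hS k
    omega
  · refine Or.inr (Or.inr ⟨n, m, one_le_full hd hZ h0 hf he, hnm, fun k hk => ?_, fun k => ?_⟩)
    · have := h5 k hk
      have := nrel_Wle hS k
      omega
    · have := h k
      have := nrel_Wle hS k
      omega

end Pool.Agent.Results.MP_c2d7b4_nt.RelationIdeal
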