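import Mathlib
import Pool.Agent.R390.MZ.Super

set_option autoImplicit false

/-!
# The numbers of relations between the Hoffman elements of weight at most `k` are supermodular

Let `R_k` be the number of independent relations between the Hoffman elements of weight at most `k`.
Then `R_(k+i) + R_(k+j) ≤ R_(k+i+j) + R_k` for all `k` and all `i, j ≥ 2`.
-/

open Pool.Agent.R390.MZ

namespace Pool.Agent.Results.MP_c2d7b4_nt.SupermodularCounts

/-- Assume the two theorems of Brown: the Hoffman elements of weight `k` span the space `Z_k` of all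
multiple zeta values of weight `k` (`hS`), and the `Z_k` are generated by numbers with `d_k` monomials
of weight `k` (`hB`). Let `R_k` be the number of independent relations between the Hoffman elements
of weight at most `k`. Then `R_(k+i) + R_(k+j) ≤ R_(k+i+j) + R_k` for all `k` and all `i, j ≥ 2`. -/
theorem result (hS : ∀ k, Submodule.span ℚ (Set.range fun l : Weq k => zt l.1) = ZL k)
    (hB : Gen ZL dz) (i j : ℕ) (hi : 2 ≤ i) (hj : 2 ≤ j) (k : ℕ) :
    nrel (fun l : Wle (k + i) => zt l.1) + nrel (fun l : Wle (k + j) => zt l.1) ≤
      nrel (fun l : Wle (k + i + j) => zt l.1) + nrel (fun l : Wle k => zt l.1) := by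
  obtain ⟨σ, wt, x, hd, hZ⟩ := hB
  have h := super_full hd hZ (i := i) (j := j) (by omega) (ZL_ne_bot (by omega))
    (ZL_ne_bot (by omega)) k
  have hfin := finite_L hd
  have e : ∀ l, nrel (fun w : Wle l => zt w.1) = Module.finrank ℚ (pt (L wt) (Pf x) l) := by
    intro l
    have h1 := finrank_map_add (finrank_L hd) (MvPolynomial.aeval (R := ℚ) x).toLinearMap
      (P := Pf x) (k := l) (fun f _ => mem_Pf)
    rw [← iSup_Z_eq hZ] at h1
    have h2 := nrel_Wle hS l
    omega
  rw [e, e, e, e]
  exact h

end Pool.Agent.Results.MP_c2d7b4_nt.SupermodularCounts
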